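import Pool.Agent.Helper95_CM.StB

/-! helper12, CM (MP_31342c_an): derivatives of determinants, PIOLA. -/

set_option autoImplicit false

namespace Pool.Agent.Helper95_CM.H12

open MvPolynomial

section general
variable {A : Type*} [CommRing A]

/-- Leibniz rule for an additive map -/
def Leib (D : A →+ A) : Prop := ∀ x y, D (x * y) = D x * y + x * D y

lemma Leib.one {D : A →+ A} (h : Leib D) : D 1 = 0 := by
  have := h 1 1
  rw [one_mul, mul_one, one_mul] at this
  exact left_eq_add.mp this

lemma der_prod {ι : Type*} [DecidableEq ι] {D : A →+ A} (hD : Leib D) (f : ι → A)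
    (s : Finset ι) : D (∏ i ∈ s, f i) = ∑ m ∈ s, D (f m) * ∏ i ∈ s.erase m, f i := by
  induction s using Finset.induction_on with
  | empty => simp [hD.one]
  | insert a s ha ih =>
    rw [Finset.prod_insert ha, hD, ih, Finset.sum_insert ha, Finset.erase_insert ha,
      Finset.mul_sum]
    congr 1
    apply Finset.sum_congr rfl
    intro m hm
    have hne : a ≠ m := fun h => ha (h ▸ hm)
    rw [Finset.erase_insert_of_ne hne, Finset.prod_insert (fun h => ha (Finset.mem_of_mem_erase h))]
    ring

lemma der_det_col {m : Type*} [Fintype m] [DecidableEq m] {D : A →+ A} (hD : Leib D)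
    (M : Matrix m m A) : D M.det = ∑ j, (M.updateCol j (fun i => D (M i j))).det := by
  simp only [Matrix.det_apply]
  rw [map_sum, Finset.sum_comm]
  apply Finset.sum_congr rfl
  intro σ _
  rw [← Finset.smul_sum]
  have e : D (Equiv.Perm.sign σ • ∏ i, M (σ i) i) = Equiv.Perm.sign σ • D (∏ i, M (σ i) i) := by
    rcases Int.units_eq_one_or (Equiv.Perm.sign σ) with h | h <;> rw [h] <;> simp
  rw [e, der_prod hD]
  congr 1
  apply Finset.sum_congr rfl
  intro j _
  rw [← Finset.mul_prod_erase Finset.univ _ (Finset.mem_univ j), Matrix.updateCol_self]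
  congr 1
  apply Finset.prod_congr rfl
  intro i hi
  rw [Matrix.updateCol_ne (Finset.ne_of_mem_erase hi)]

lemma der_det_row {m : Type*} [Fintype m] [DecidableEq m] {D : A →+ A} (hD : Leib D)
    (M : Matrix m m A) : D M.det = ∑ j, (M.updateRow j (fun i => D (M j i))).det := by
  rw [← Matrix.det_transpose, der_det_col hD]
  apply Finset.sum_congr rfl
  intro j _
  rw [← Matrix.det_transpose, Matrix.updateCol_transpose, Matrix.transpose_transpose]
  rfl

lemma alt_swap {m : Type*} [Fintype m] [DecidableEq m] (H : Matrix m m A) {j k : m} (hjk : j ≠ k)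
    (u v : m → A) : ((H.updateRow j u).updateRow k v).det + ((H.updateRow j v).updateRow k u).det
      = 0 := by
  have h0 : ∀ w : m → A, ((H.updateRow j w).updateRow k w).det = 0 := by
    intro w
    apply Matrix.det_zero_of_row_eq hjk
    rw [Matrix.updateRow_ne hjk, Matrix.updateRow_self, Matrix.updateRow_self]
  have h := h0 (u + v)
  rw [Matrix.det_updateRow_add, Matrix.updateRow_comm _ hjk, Matrix.updateRow_comm _ hjk,
    Matrix.det_updateRow_add, Matrix.det_updateRow_add, Matrix.updateRow_comm _ hjk.symm,
    Matrix.updateRow_comm _ hjk.symm, Matrix.updateRow_comm _ hjk.symm,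
    Matrix.updateRow_comm _ hjk.symm, h0, h0, zero_add, add_zero] at h
  rw [add_comm]
  exact h

lemma sum_sym_alt {m : Type*} [Fintype m] [DecidableEq m] (H : Matrix m m A) {j k : m}
    (hjk : j ≠ k) (T : m → m → A) (hT : ∀ i l, T i l = T l i) :
    ∑ i, ((H.updateRow j (Pi.single i 1)).updateRow k (T i)).det = 0 := by
  have e : ∀ i, ((H.updateRow j (Pi.single i 1)).updateRow k (T i)).det =
      ∑ l, T i l * ((H.updateRow j (Pi.single i 1)).updateRow k (Pi.single l 1)).det := by
    intro i
    rw [← Matrix.cramer_transpose_apply]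
    conv_lhs => rw [pi_eq_sum_univ' (T i)]
    rw [map_sum, Finset.sum_apply]
    apply Finset.sum_congr rfl
    intro l _
    rw [map_smul, Pi.smul_apply, smul_eq_mul, ← Matrix.cramer_transpose_apply]
  simp_rw [e]
  rw [← Finset.sum_product']
  apply Finset.sum_involution (fun x _ => (x.2, x.1))
  · rintro ⟨i, l⟩ _
    have h := alt_swap H hjk (Pi.single i (1 : A)) (Pi.single l 1)
    simp only
    rw [hT l i, ← mul_add, h, mul_zero]
  · rintro ⟨i, l⟩ _ hne heq
    simp only [Prod.mk.injEq] at heq
    apply hne
    simp only
    rw [heq.1]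
    have h : ((H.updateRow j (Pi.single i (1 : A))).updateRow k (Pi.single i 1)).det = 0 := by
      apply Matrix.det_zero_of_row_eq hjk
      rw [Matrix.updateRow_ne hjk, Matrix.updateRow_self, Matrix.updateRow_self]
    rw [h, mul_zero]
  · intro _ _
    exact Finset.mem_univ _
  · rintro ⟨i, l⟩ _
    rfl

end general

section cone
variable {n M : ℕ} {R : Type} [CommRing R]

lemma coeff_th (i : Fin (n + 1)) (x : PP n R) (s : Expo n) :
    coeff s (th i x) = (s i : R) * coeff s x := by
  induction x using MvPolynomial.induction_on' with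
  | monomial u a =>
    have e : th i (monomial u a) = (u i : PP n R) * monomial u a := by
      show (X i : PP n R) • pderiv i (monomial u a) = _
      rw [smul_eq_mul, pderiv_monomial]
      by_cases h : u i = 0
      · simp [h]
      · rw [X, monomial_mul, one_mul]
        have : Finsupp.single i 1 + (u - Finsupp.single i 1) = u := by
          apply add_tsub_cancel_of_le
          rw [Finsupp.single_le_iff]
          omega
        rw [this, mul_comm, ← map_natCast (C : R →+* PP n R), C_mul_monomial]
    rw [e, ← map_natCast (C : R →+* PP n R), coeff_C_mul, coeff_monomial]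
    split_ifs with h
    · rw [h]
    · rw [mul_zero, mul_zero]
  | add p q hp hq => rw [map_add, coeff_add, hp, hq, coeff_add, mul_add]

lemma th_comm (i j : Fin (n + 1)) (x : PP n R) : th i (th j x) = th j (th i x) := by
  ext s
  simp only [coeff_th]
  ring

/-- `th i` as an additive map -/
noncomputable def thA (i : Fin (n + 1)) : PP n R →+ PP n R :=
  ((th i : Derivation R (PP n R) (PP n R)) : PP n R →ₗ[R] PP n R).toAddMonoidHom

lemma thA_apply (i : Fin (n + 1)) (x : PP n R) : thA i x = th i x := rfl

lemma thA_leib (i : Fin (n + 1)) : Leib (thA (n := n) (R := R) i) := by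
  intro x y
  simp only [thA_apply]
  rw [Derivation.leibniz, smul_eq_mul, smul_eq_mul]
  ring

lemma Hes_apply (c : Grid n M → R) (i j : Fin (n + 1)) : Hes c i j = th i (th j (Fp c)) := rfl

lemma Hes_symm (c : Grid n M → R) : (Hes c).transpose = Hes c := by
  ext i j : 2
  rw [Matrix.transpose_apply, Hes_apply, Hes_apply, th_comm]

lemma adj_symm (c : Grid n M → R) (i j : Fin (n + 1)) :
    (Hes c).adjugate i j = (Hes c).adjugate j i := by
  have h := Matrix.adjugate_transpose (Hes c)
  rw [Hes_symm] at h
  conv_rhs => rw [← h]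
  rfl

/-- PIOLA -/
theorem piola : PiolaStmt := by
  intro n M R _ c j _ _
  have h1 : ∀ i, th i ((Hes c).adjugate i j) = ∑ k ∈ Finset.univ.erase j,
      (((Hes c).updateRow j (Pi.single i 1)).updateRow k
        (fun l => th i (Hes c k l))).det := by
    intro i
    rw [Matrix.adjugate_apply]
    have h := der_det_row (thA_leib (n := n) (R := R) i)
      ((Hes c).updateRow j (Pi.single i 1))
    simp only [thA_apply] at h
    rw [h, ← Finset.add_sum_erase Finset.univ _ (Finset.mem_univ j)]
    have h0 : (((Hes c).updateRow j (Pi.single i 1)).updateRow j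
        (fun l => th i (((Hes c).updateRow j (Pi.single i 1)) j l))).det = 0 := by
      apply Matrix.det_eq_zero_of_row_eq_zero j
      intro l
      rw [Matrix.updateRow_self, Matrix.updateRow_self]
      by_cases hl : l = i
      · rw [hl, Pi.single_eq_same, Derivation.map_one_eq_zero]
      · rw [Pi.single_eq_of_ne hl, map_zero]
    rw [h0, zero_add]
    apply Finset.sum_congr rfl
    intro k hk
    congr 2
    ext l : 1
    rw [Matrix.updateRow_ne (Finset.ne_of_mem_erase hk)]
  simp_rw [h1]
  rw [Finset.sum_comm]
  apply Finset.sum_eq_zero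
  intro k hk
  apply sum_sym_alt (Hes c) (Finset.ne_of_mem_erase hk).symm (fun i l => th i (Hes c k l))
  intro i l
  rw [Hes_apply, Hes_apply, th_comm k l, th_comm k i, th_comm i l]

end cone

end Pool.Agent.Helper95_CM.H12
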