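import Pool.Agent.Helper95_CM.StE
import Pool.Agent.Helper95_CM.Base
import Pool.Agent.Helper95_CM.Asm

/-! helper12, CM (MP_31342c_an): CGP. -/

set_option autoImplicit false
set_option linter.unusedSectionVars false

noncomputable section

namespace Pool.Agent.Helper95_CM.H12

open MvPolynomial

section hm
variable {G : Type} [AddCommGroup G] [LinearOrder G] [IsOrderedAddMonoid G]

lemma hmap_inj {R S : Type} [CommRing R] [CommRing S] {g : R →+* S}
    (hg : Function.Injective g) : Function.Injective (hmap (G := G) g) := by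
  intro x y h
  ext a
  apply hg
  rw [← hmap_coeff, ← hmap_coeff, h]

lemma hmap_single {R S : Type} [CommRing R] [CommRing S] (g : R →+* S) (a : G) (r : R) :
    hmap g (HahnSeries.single a r) = HahnSeries.single a (g r) := by
  ext b
  rw [hmap_coeff]
  by_cases h : b = a
  · subst h
    rw [HahnSeries.coeff_single_same, HahnSeries.coeff_single_same]
  · rw [HahnSeries.coeff_single_of_ne h, HahnSeries.coeff_single_of_ne h, map_zero]

lemma hmap_C {R S : Type} [CommRing R] [CommRing S] (g : R →+* S) (r : R) :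
    hmap g (HahnSeries.C r : HahnSeries G R) = HahnSeries.C (g r) := by
  rw [HahnSeries.C_apply, HahnSeries.C_apply, hmap_single]

end hm

section
variable {q : ℕ} {R S : Type} [CommRing R] [CommRing S]

lemma mO_inj {g : R →+* S} (hg : Function.Injective g) : Function.Injective (mO q g) :=
  hmap_inj (hmap_inj hg)

lemma mL_C (g : R →+* S) (x : OO q R) :
    mL q g (HahnSeries.C x : LL q R) = (HahnSeries.C (mO q g x) : LL q S) :=
  hmap_C (G := ℤ) (mO q g) x

lemma mO_C (g : R →+* S) (x : CC q R) :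
    mO q g (HahnSeries.C x : OO q R) = (HahnSeries.C (mC q g x) : OO q S) :=
  hmap_C (G := ℤ) (mC q g) x

lemma mC_C (g : R →+* S) (x : R) :
    mC q g (HahnSeries.C x : CC q R) = (HahnSeries.C (g x) : CC q S) :=
  hmap_C g x

lemma mL_kL (g : R →+* S) (a : R) : mL q g (kL q R a) = kL q S (g a) := by
  unfold kL
  rw [RingHom.comp_apply, RingHom.comp_apply, RingHom.comp_apply, RingHom.comp_apply,
    mL_C, mO_C, mC_C]

lemma mL_wL (g : R →+* S) : mL q g (wL q R) = wL q S := by
  unfold wL wO tt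
  rw [mL_C]
  congr 1
  have := hmap_single (G := ℤ) (mC q g) (1 : ℤ) (1 : CC q R)
  rw [map_one (mC q g)] at this
  exact this

lemma mL_tL (g : R →+* S) : mL q g (tL q R) = tL q S := by
  unfold tL tt
  have := hmap_single (G := ℤ) (mO q g) (1 : ℤ) (1 : OO q R)
  rw [map_one (mO q g)] at this
  exact this

lemma mL_vL (g : R →+* S) (i : Fin q) : mL q g (vL q R i) = vL q S i := by
  unfold vL vC
  rw [mL_C, mO_C]
  congr 2
  have := hmap_single g (toLex (Pi.single i (1 : ℤ)) : Gam q) (1 : R)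
  rw [map_one g] at this
  exact this

lemma kL_coeff (a : R) : (((kL q R a).coeff 0).coeff 0).coeff 0 = a := by
  unfold kL
  rw [RingHom.comp_apply, RingHom.comp_apply, HahnSeries.C_apply, HahnSeries.coeff_single_same,
    HahnSeries.C_apply, HahnSeries.coeff_single_same, HahnSeries.C_apply,
    HahnSeries.coeff_single_same]

lemma ordGe_mL (g : R →+* S) {e : ℤ} {x : LL q R} (h : OrdGe e x) : OrdGe e (mL q g x) := by
  intro m hm
  change mO q g (x.coeff m) = 0
  rw [h m hm, map_zero]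

lemma ordGe_of_mL {g : R →+* S} (hg : Function.Injective g) {e : ℤ} {x : LL q R}
    (h : OrdGe e (mL q g x)) : OrdGe e x := by
  intro m hm
  have h1 : mO q g (x.coeff m) = 0 := h m hm
  exact mO_inj hg (by rw [h1, map_zero])

end

section
variable {n M : ℕ} {R S : Type} [CommRing R] [CommRing S]

lemma ftil_map (g : R →+* S) (f : MvPolynomial (Fin n) R) (β : Grid n M) :
    ftil (MvPolynomial.map g f) β = g (ftil f β) := by
  classical
  have h0 : ftil (MvPolynomial.map g f) β = f.support.sum fun u =>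
      coeff u (MvPolynomial.map g f) *
        ∏ k, (if u k ≤ (β k : ℕ) then (Nat.choose (M - u k) ((β k : ℕ) - u k) : S) else 0) := by
    unfold ftil
    apply Finset.sum_subset (MvPolynomial.support_map_subset g f)
    intro u _ hu
    rw [notMem_support_iff.mp hu, zero_mul]
  rw [h0]
  unfold ftil
  rw [map_sum]
  apply Finset.sum_congr rfl
  intro u _
  rw [map_mul, coeff_map, map_prod]
  congr 1
  apply Finset.prod_congr rfl
  intro k _
  split_ifs
  · rw [map_natCast]
  · rw [map_zero]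

lemma cgen_map (g : R →+* S) (D : ℕ) (f : MvPolynomial (Fin n) R) (β : Grid n M) :
    mL (qG n M) g (cgen D f β) = cgen D (MvPolynomial.map g f) β := by
  unfold cgen
  rw [map_add, map_sub, map_mul, map_mul, map_pow, map_natCast, mL_wL, mL_kL, mL_tL, mL_vL,
    ftil_map]

lemma map_nab {d : R →+ R} {d' : S →+ S} {g : R →+* S} (hd : ∀ x, g (d x) = d' (g x))
    (c : Grid n M → R) (x : PP n R) :
    map g (nab d c x) = nab d' (fun β => g (c β)) (map g x) := by
  have h1 : ∀ y : PP n R, map g (cder d y) = cder d' (map g y) := by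
    intro y
    ext s
    rw [coeff_map, coeff_cder, coeff_cder, coeff_map, hd]
  unfold nab
  rw [map_sub, map_mul, h1, h1, map_Fp]

end

lemma zq_inj (p : ℕ) [Fact p.Prime] : Function.Injective (zq p) :=
  FaithfulSMul.algebraMap_injective ℤ_[p] ℚ_[p]

/-- pole order of a Laurent series -/
lemma exists_ordGe {R : Type} [CommRing R] (x : LaurentSeries R) :
    ∃ e : ℕ, OrdGe (-(e : ℤ)) x := by
  by_cases hx : x = 0
  · exact ⟨0, by intro m _; rw [hx]; rfl⟩
  · refine ⟨(x.order).natAbs, ?_⟩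
    intro m hm
    apply HahnSeries.coeff_eq_zero_of_lt_order
    have := neg_abs_le x.order
    rw [← Int.natCast_natAbs] at this
    omega

/-- lifts of finitely many elements -/
lemma lift_coeff (hSpg : SpgStmt) (K : Type) [Field K] [NumberField K] (a : K) :
    ∃ p0 : ℕ, ∀ (p : ℕ) [Fact p.Prime], p0 ≤ p → ∀ ι : K →+* ℚ_[p], ∃ y : ℤ_[p],
      ι a = zq p y := by
  obtain ⟨_, _, _, _, _, h, _⟩ := hSpg 0 K
  obtain ⟨p0, hp0⟩ := (h a).1
  refine ⟨p0, fun p _ hp ι => ?_⟩
  obtain ⟨y, hy⟩ := hp0 p hp ι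
  refine ⟨((y.coeff 0).coeff 0).coeff 0, ?_⟩
  have h1 : (((mL 0 ι (kL 0 K a)).coeff 0).coeff 0).coeff 0 = ι a := by
    rw [mL_kL, kL_coeff]
  rw [← h1, hy]
  rfl

lemma lift_poly (hSpg : SpgStmt) (n : ℕ) (K : Type) [Field K] [NumberField K]
    (f : MvPolynomial (Fin n) K) :
    ∃ p0 : ℕ, ∀ (p : ℕ) [Fact p.Prime], p0 ≤ p → ∀ ι : K →+* ℚ_[p],
      ∃ f' : MvPolynomial (Fin n) ℤ_[p], LiftP ι f f' := by
  classical
  choose P hP using fun a : K => lift_coeff hSpg K a
  refine ⟨∑ u ∈ f.support, P (coeff u f), fun p _ hp ι => ?_⟩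
  have h1 : ∀ u : Fin n →₀ ℕ, ∃ y : ℤ_[p], ι (coeff u f) = zq p y := by
    intro u
    by_cases hu : u ∈ f.support
    · apply hP (coeff u f) p _ ι
      exact le_trans (Finset.single_le_sum (f := fun u => P (coeff u f))
        (fun _ _ => Nat.zero_le _) hu) hp
    · refine ⟨0, ?_⟩
      rw [notMem_support_iff.mp hu, map_zero, map_zero]
  choose y hy using h1
  refine ⟨∑ u ∈ f.support, monomial u (y u), ?_⟩
  unfold LiftP
  ext u
  rw [coeff_map, coeff_map, coeff_sum]
  simp only [coeff_monomial]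
  rw [Finset.sum_ite_eq' f.support u]
  split_ifs with h
  · exact hy u
  · rw [notMem_support_iff.mp h, map_zero, map_zero]

/-- CGP. -/
theorem cgp (hCgu : CguStmt) (hHb3 : Hb3Stmt) (hSpg : SpgStmt) (hLft : LftStmt)
    (hOpc : OpcStmt) : CgpStmt := by
  intro n M D b A K _ _ f hG
  obtain ⟨hdt0, hdtG, hcG, _, _⟩ := hCgu n M D b A K f hG
  have hn : 1 ≤ n := hG.hn
  have hM : 1 ≤ M := le_trans (by norm_num) hG.hM
  obtain ⟨⟨S, hS⟩, _⟩ := hSpg (qG n M) K
  have hinvG : InG (dt A (cgen D f))⁻¹ := by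
    rw [← hS]
    exact S.inv_mem ((hS _).mpr hdtG)
  obtain ⟨p1, hp1⟩ := hinvG.1
  obtain ⟨p2, hp2⟩ := lift_poly hSpg n K f
  obtain ⟨e, he⟩ := exists_ordGe (dt A (cgen D f))⁻¹
  refine ⟨p1 + p2, e, fun p _ hp ι => ⟨hp2 p (by omega) ι, fun f' hf' => ?_⟩⟩
  have hc : ∀ β : Grid n M,
      mL (qG n M) ι (cgen D f β) = mL (qG n M) (zq p) (cgen D f' β) := by
    intro β
    rw [cgen_map, cgen_map, hf']
  have hc' : (fun β : Grid n M => mL (qG n M) ι (cgen D f β)) =
      fun β : Grid n M => mL (qG n M) (zq p) (cgen D f' β) := funext hc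
  have hdt : mL (qG n M) ι (dt A (cgen D f)) = mL (qG n M) (zq p) (dt A (cgen D f')) := by
    rw [← dt_map, ← dt_map, hc']
  have hinj := (hLft (qG n M) p).1
  obtain ⟨y, hy⟩ := hp1 p (by omega) ι
  have hy1 : y * dt A (cgen D f') = 1 := by
    apply hinj
    rw [map_mul, ← hy, ← hdt, ← map_mul, inv_mul_cancel₀ hdt0, map_one, map_one]
  have hu : IsUnit (dt A (cgen (M := M) D f')) := IsUnit.of_mul_eq_one _ (by rw [mul_comm]; exact hy1)
  have hinv : Ring.inverse (dt A (cgen (M := M) D f')) = y := by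
    obtain ⟨u, hu'⟩ := hu
    rw [← hu', Ring.inverse_unit]
    rw [← hu'] at hy1
    have := congrArg (fun z => z * ((u⁻¹ : (LL (qG n M) ℤ_[p])ˣ) : LL (qG n M) ℤ_[p])) hy1
    simp only [mul_assoc, Units.mul_inv, mul_one, one_mul] at this
    exact this.symm
  have hu0 : IsUnit (dt A (cgen (M := M) D f)) := IsUnit.mk0 _ hdt0
  have hcrd : ∀ (x : PP n (LL (qG n M) K)) (x' : PP n (LL (qG n M) ℤ_[p])),
      map (mL (qG n M) ι) x = map (mL (qG n M) (zq p)) x' →
      ∀ s, mL (qG n M) ι (crd A (cgen D f) x s) =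
        mL (qG n M) (zq p) (crd A (cgen D f') x' s) := by
    intro x x' hx s
    rw [← hHb3 n M b A _ _ (mL (qG n M) ι) (cgen D f) hn hM hu0 x s,
      ← hHb3 n M b A _ _ (mL (qG n M) (zq p)) (cgen D f') hn hM hu x' s, hc', hx]
  refine ⟨hc, hu, ?_, ?_, hcrd, ?_⟩
  · rw [hinv]
    apply ordGe_of_mL (zq_inj p)
    rw [← hy]
    exact ordGe_mL ι he
  · intro β
    apply ordGe_of_mL (zq_inj p)
    rw [← hc]
    exact ordGe_mL ι (hcG β).2
  · unfold LiftM
    apply Matrix.ext
    intro s' s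
    rw [Matrix.map_apply, Matrix.map_apply]
    unfold Rm
    rw [Matrix.of_apply, Matrix.of_apply]
    apply hcrd
    have ho1 := (hOpc (qG n M) K ℚ_[p] ι p (Fact.out : p.Prime).pos).2.1
    have ho2 := (hOpc (qG n M) ℤ_[p] ℚ_[p] (zq p) p (Fact.out : p.Prime).pos).2.1
    rw [map_nab ho1, map_nab ho2, map_bb, map_bb, hc']

end Pool.Agent.Helper95_CM.H12
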