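import Pool.Agent.Helper12_CM.Cgp

/-! helper12, CM (MP_31342c_an): FRK, TKG. -/

set_option autoImplicit false
set_option linter.unusedSectionVars false

noncomputable section

namespace Pool.Agent.Helper95_CM.H12

open MvPolynomial

section mat
variable {I J R : Type} [CommRing R]

lemma Cong.mono {p : R} {N N' : ℕ} (h : N ≤ N') {X Y : Matrix I J R}
    (hX : Cong (p ^ N') X Y) : Cong (p ^ N) X Y :=
  fun i j => (pow_dvd_pow p h).trans (hX i j)

lemma FStr.mono {I : Type} [Fintype I] [DecidableEq I] {f : R →+* R} {d : R →+ R}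
    {p N N' L : ℕ} {Q P F : Matrix I I R} (h : N ≤ N') (hX : FStr f d p N' L Q P F) :
    FStr f d p N L Q P F :=
  ⟨Cong.mono h hX.PF, Cong.mono h hX.FP, Cong.mono h hX.cP, Cong.mono h hX.cF⟩

lemma PolMod.mono {𝒪 : Type} [CommRing 𝒪] {p N N' : ℕ} (h : N ≤ N')
    {Q : Matrix I J (LaurentSeries 𝒪)} (hQ : PolMod p N' Q) : PolMod p N Q :=
  fun i j m hm => (pow_dvd_pow _ h).trans (hQ i j m hm)

lemma OrdGe.mono {𝒪 : Type} [CommRing 𝒪] {a b : ℤ} (h : a ≤ b) {x : LaurentSeries 𝒪}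
    (hx : OrdGe b x) : OrdGe a x := fun i hi => hx i (lt_of_lt_of_le hi h)

lemma OrdGe.sum {𝒪 : Type} [CommRing 𝒪] {a : ℤ} {ι : Type} (t : Finset ι)
    (x : ι → LaurentSeries 𝒪) (hx : ∀ i ∈ t, OrdGe a (x i)) : OrdGe a (∑ i ∈ t, x i) := by
  intro m hm
  rw [HahnSeries.coeff_sum]
  exact Finset.sum_eq_zero fun i hi => hx i hi m hm

lemma OrdGe.mul {𝒪 : Type} [CommRing 𝒪] {a b : ℤ} {x y : LaurentSeries 𝒪}
    (hx : OrdGe a x) (hy : OrdGe b y) : OrdGe (a + b) (x * y) := by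
  intro m hm
  rw [HahnSeries.coeff_mul]
  apply Finset.sum_eq_zero
  rintro ⟨i, j⟩ hij
  rw [Finset.mem_antidiagonal] at hij
  have hs : i + j = m := hij.2.2
  by_cases h : i < a
  · rw [hx i h, zero_mul]
  · rw [hy j (by omega), mul_zero]

lemma PolLe.mul {I J J' 𝒪 : Type} [Fintype J] [CommRing 𝒪] {a b : ℕ}
    {X : Matrix I J (LaurentSeries 𝒪)} {Y : Matrix J J' (LaurentSeries 𝒪)}
    (hX : PolLe a X) (hY : PolLe b Y) : PolLe (a + b) (X * Y) := by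
  intro i j
  rw [Matrix.mul_apply]
  apply OrdGe.sum
  intro k _
  have := OrdGe.mul (hX i k) (hY k j)
  refine OrdGe.mono ?_ this
  push_cast
  omega

lemma PolLe.mono {𝒪 : Type} [CommRing 𝒪] {a b : ℕ} (h : a ≤ b)
    {X : Matrix I J (LaurentSeries 𝒪)} (hX : PolLe a X) : PolLe b X :=
  fun i j => OrdGe.mono (by omega) (hX i j)

lemma PolLe.phT {𝒪 : Type} [CommRing 𝒪] {a p : ℕ} (hp : 0 < p) (φ : 𝒪 →+* 𝒪)
    {X : Matrix I J (LaurentSeries 𝒪)} (hX : PolLe a X) :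
    PolLe (a * p) (X.map (phT p φ)) := by
  intro i j m hm
  rw [Matrix.map_apply]
  by_cases h : (p : ℤ) ∣ m
  · obtain ⟨k, rfl⟩ := h
    rw [phT_coeff hp, hX i j k, map_zero]
    push_cast at hm
    have hp' : (0 : ℤ) < p := by exact_mod_cast hp
    by_contra hk
    push Not at hk
    have : -(a : ℤ) * p ≤ p * k := by nlinarith
    linarith
  · exact phT_coeff_ne hp φ _ _ h

lemma exists_polLe {𝒪 : Type} [CommRing 𝒪] [Fintype I] [Fintype J]
    (X : Matrix I J (LaurentSeries 𝒪)) : ∃ a : ℕ, PolLe a X := by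
  classical
  choose e he using fun i j => exists_ordGe (X i j)
  refine ⟨∑ i, ∑ j, e i j, fun i j => OrdGe.mono ?_ (he i j)⟩
  have h1 : e i j ≤ ∑ j, e i j := Finset.single_le_sum (f := fun j => e i j)
    (fun _ _ => Nat.zero_le _) (Finset.mem_univ j)
  have h2 : ∑ j, e i j ≤ ∑ i, ∑ j, e i j := Finset.single_le_sum (f := fun i => ∑ j, e i j)
    (fun _ _ => Nat.zero_le _) (Finset.mem_univ i)
  have h3 : (e i j : ℤ) ≤ ((∑ i, ∑ j, e i j : ℕ) : ℤ) := by exact_mod_cast h1.trans h2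
  linarith

end mat

section
variable {q p : ℕ} [Fact p.Prime] {I J : Type} {K : Type} [Field K]

lemma map_mL_inj (hLft : LftStmt) {X Y : Matrix I J (LL q ℤ_[p])}
    (h : X.map (mL q (zq p)) = Y.map (mL q (zq p))) : X = Y := by
  apply Matrix.ext
  intro i j
  apply (hLft q p).1
  have := congrFun (congrFun h i) j
  exact this

lemma LiftM.polLe {ι : K →+* ℚ_[p]} {X : Matrix I J (LL q K)} {X' : Matrix I J (LL q ℤ_[p])}
    (h : LiftM ι X X') {a : ℕ} (hX : PolLe a X) : PolLe a X' := by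
  intro i j
  apply ordGe_of_mL (zq_inj p)
  have h1 : mL q ι (X i j) = mL q (zq p) (X' i j) := congrFun (congrFun h i) j
  rw [← h1]
  exact ordGe_mL ι (hX i j)

/-- gauge transformations lift -/
lemma gauge_lift [Fintype I] [DecidableEq I] (hLft : LftStmt) (hOpc : OpcStmt)
    {ι : K →+* ℚ_[p]} {U Ui Q Q' : Matrix I I (LL q K)}
    {U' Ui' R R' : Matrix I I (LL q ℤ_[p])} (hg : Gauge (thLt q K) U Ui Q Q')
    (hU : LiftM ι U U') (hUi : LiftM ι Ui Ui') (hQ : LiftM ι Q R) (hQ' : LiftM ι Q' R') :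
    Gauge (thLt q ℤ_[p]) U' Ui' R R' := by
  have ho1 := (hOpc q K ℚ_[p] ι p (Fact.out : p.Prime).pos).2.1
  have ho2 := (hOpc q ℤ_[p] ℚ_[p] (zq p) p (Fact.out : p.Prime).pos).2.1
  have h1 : (1 : Matrix I I (LL q K)).map (mL q ι) = 1 :=
    Matrix.map_one _ (map_zero _) (map_one _)
  have h2 : (1 : Matrix I I (LL q ℤ_[p])).map (mL q (zq p)) = 1 :=
    Matrix.map_one _ (map_zero _) (map_one _)
  unfold LiftM at hU hUi hQ hQ'
  refine ⟨?_, ?_, ?_⟩
  · apply map_mL_inj hLft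
    rw [Matrix.map_mul, ← hU, ← hUi, ← Matrix.map_mul, hg.inv, h1, h2]
  · apply map_mL_inj hLft
    rw [Matrix.map_mul, ← hU, ← hUi, ← Matrix.map_mul, hg.inv', h1, h2]
  · apply map_mL_inj hLft
    have h3 : (U'.map (thLt q ℤ_[p])).map (mL q (zq p)) =
        (U.map (thLt q K)).map (mL q ι) := by
      apply Matrix.ext
      intro i j
      have h4 : mL q ι (U i j) = mL q (zq p) (U' i j) := congrFun (congrFun hU i) j
      simp only [Matrix.map_apply]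
      rw [ho1, ho2, h4]
    rw [Matrix.map_add _ (map_add _), Matrix.map_mul, Matrix.map_mul, h3, ← hU, ← hQ, ← hQ',
      ← Matrix.map_mul, ← Matrix.map_mul, ← Matrix.map_add _ (map_add _), hg.eq]

end

section
variable {q : ℕ} {K : Type} [Field K]

lemma inG_zero : InG (0 : LL q K) := by
  refine ⟨⟨0, fun p _ _ ι => ⟨0, by rw [map_zero, map_zero]⟩⟩, fun m => ?_⟩
  rw [HahnSeries.coeff_zero]
  exact (kF q K).zero_mem

lemma inG_one : InG (1 : LL q K) := by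
  refine ⟨⟨0, fun p _ _ ι => ⟨1, by rw [map_one, map_one]⟩⟩, fun m => ?_⟩
  rw [HahnSeries.coeff_one]
  split_ifs
  · exact (kF q K).one_mem
  · exact (kF q K).zero_mem

end

/-- the Frobenius structure over `ℤ_p`, with explicit matrices -/
lemma core (hFrb : FrbStmt) (hPfm : PfmStmt) (hCpm : CpmStmt) (hPfp : PfpStmt)
    (hPol : PolStmt) {n M D : ℕ} {b : Bool} (A : CAD n M b) (hn : 1 ≤ n) (hM : 1 ≤ M)
    {p : ℕ} [Fact p.Prime] (hp : 3 ≤ p) (f' : MvPolynomial (Fin n) ℤ_[p])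
    (Dl : PP n (LL (qG n M) ℤ_[p]))
    (hDl : IsDl p (phL (qG n M) ℤ_[p] p) (cgen D f') Dl)
    (hu : IsUnit (dt A (cgen (M := M) D f'))) (hc : ∀ β : Grid n M, OrdGe 0 (cgen D f' β))
    (e : ℕ) (he : OrdGe (-(e : ℤ)) (Ring.inverse (dt A (cgen (M := M) D f'))))
    (N : ℕ) (hN : Lb n b * Fintype.card A.Bas + Lb n b + 1 ≤ N) :
    FStr (phL (qG n M) ℤ_[p] p) (thLt (qG n M) ℤ_[p]) p
      (N - (Lb n b * Fintype.card A.Bas + Lb n b)) (Lb n b)
      (Rm A (thLt (qG n M) ℤ_[p]) (cgen D f'))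
      (Pm A p (kL (qG n M) ℤ_[p]) N (phL (qG n M) ℤ_[p] p) (cgen D f') Dl)
      (Fm A p (kL (qG n M) ℤ_[p]) N (phL (qG n M) ℤ_[p] p) (cgen D f') Dl) ∧
    PolLe (polB n e N * p)
      (Pm A p (kL (qG n M) ℤ_[p]) N (phL (qG n M) ℤ_[p] p) (cgen D f') Dl) ∧
    PolLe (polB n e N * p)
      (Fm A p (kL (qG n M) ℤ_[p]) N (phL (qG n M) ℤ_[p] p) (cgen D f') Dl) := by
  have hN1 : 1 ≤ N := by omega
  have hFB := (hFrb (qG n M) p).1
  have h1 := (hPfm n M p b A (LL (qG n M) ℤ_[p]) (kL (qG n M) ℤ_[p]) (phL (qG n M) ℤ_[p] p)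
    (thLt (qG n M) ℤ_[p]) (cgen D f') Dl N hn hM hp hN1 hFB hDl hu).1
  have h2 := hCpm n M p b A (LL (qG n M) ℤ_[p]) (kL (qG n M) ℤ_[p]) (phL (qG n M) ℤ_[p] p)
    (thLt (qG n M) ℤ_[p]) (cgen D f') Dl N hn hM hp hN1 hFB hDl hu
  have h3 := hPfp p A.Bas (LL (qG n M) ℤ_[p]) (kL (qG n M) ℤ_[p]) (phL (qG n M) ℤ_[p] p)
    (thLt (qG n M) ℤ_[p]) N (Lb n b) _ _ _ hFB hN h1 h2
  have hz : ∀ a : ℤ_[p], OrdGe 0 (kL (qG n M) ℤ_[p] a) := by
    intro a m hm
    unfold kL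
    rw [RingHom.comp_apply, HahnSeries.C_apply, HahnSeries.coeff_single_of_ne (by omega)]
  have h4 := hPol n M p b A (OO (qG n M) ℤ_[p]) (kL (qG n M) ℤ_[p]) (phO (qG n M) ℤ_[p] p)
    (cgen D f') Dl N e hn hM hp hN1 hFB hz hDl hu hc he
  rw [mul_comm p] at h4
  exact ⟨h3, h4.1, h4.2⟩

/-- FRK. -/
theorem frk (hDle : DleStmt) (hFrb : FrbStmt) (hPfm : PfmStmt) (hCpm : CpmStmt)
    (hPfp : PfpStmt) (hPol : PolStmt) (hCgp : CgpStmt) (hCgu : CguStmt) (hLft : LftStmt) :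
    FrkStmt := by
  intro n M D b A K _ _ f hG
  have hn : 1 ≤ n := hG.hn
  have hM : 1 ≤ M := le_trans (by norm_num) hG.hM
  refine ⟨(hCgu n M D b A K f hG).2.2.2.2, ?_⟩
  obtain ⟨p0, e, hp0⟩ := hCgp n M D b A K f hG
  have key : ∀ (N : ℕ) (p : ℕ) [Fact p.Prime], p0 + 3 ≤ p →
      ∀ (ι : K →+* ℚ_[p]) (Q' : Matrix A.Bas A.Bas (LL (qG n M) ℤ_[p])),
      LiftM ι (Rm A (thLt (qG n M) K) (cgen D f)) Q' →
      ∃ P F, FStr (phL (qG n M) ℤ_[p] p) (thLt (qG n M) ℤ_[p]) p N (Lb n b) Q' P F ∧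
        PolLe (polB n e (N + (Lb n b * Fintype.card A.Bas + Lb n b) + 1) * p) P ∧
        PolLe (polB n e (N + (Lb n b * Fintype.card A.Bas + Lb n b) + 1) * p) F := by
    intro N p _ hp ι Q' hQ'
    obtain ⟨⟨f', hf'⟩, hall⟩ := hp0 p (by omega) ι
    obtain ⟨_, hu, he, hc, _, hR⟩ := hall f' hf'
    have hQ : Q' = Rm A (thLt (qG n M) ℤ_[p]) (cgen D f') := by
      apply map_mL_inj hLft
      unfold LiftM at hQ' hR
      rw [← hQ', hR]
    obtain ⟨Dl, hDl⟩ := (hDle n M p (LL (qG n M) ℤ_[p]) (kL (qG n M) ℤ_[p])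
      (phL (qG n M) ℤ_[p] p) (thLt (qG n M) ℤ_[p]) (cgen D f') (hFrb (qG n M) p).1).1
    obtain ⟨h1, h2, h3⟩ := core hFrb hPfm hCpm hPfp hPol A hn hM (by omega : 3 ≤ p) f' Dl hDl hu
      hc e he (N + (Lb n b * Fintype.card A.Bas + Lb n b) + 1) (by omega)
    subst hQ
    exact ⟨_, _, FStr.mono (by omega) h1, h2, h3⟩
  intro N
  refine ⟨_, p0 + 3, fun p _ hp ι Q' hQ' => ⟨fun N' => ?_, key N p hp ι Q' hQ'⟩⟩
  obtain ⟨P, F, h, _⟩ := key N' p hp ι Q' hQ'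
  exact ⟨P, F, h⟩

/-- TKG. -/
theorem tkg (hFrk : FrkStmt) (hTrk : TrkStmt) (hFrb : FrbStmt) (hPfm : PfmStmt)
    (hCpm : CpmStmt) (hPfp : PfpStmt) (hPol : PolStmt) (hGau : GauStmt) (hDual : DualStmt)
    (hGauk : GaukStmt) (hCgp : CgpStmt) (hLft : LftStmt) (hOpc : OpcStmt) : TkgStmt := by
  intro n M D b A K _ _ f U Ui Rv hG hL N'
  have hn : 1 ≤ n := hG.hn
  have hM : 1 ≤ M := le_trans (by norm_num) hG.hM
  obtain ⟨p0, e, hp0⟩ := hCgp n M D b A K f hG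
  obtain ⟨u, hu⟩ := exists_polLe U
  obtain ⟨v, hv⟩ := exists_polLe Ui
  -- precision
  set L := Lb n b with hLdef
  set r := Fintype.card A.Bas with hr
  set N := N' + (2 * L + 1) * r ^ 2 + (L * r + L) + 1 with hN
  set C := polB n e N with hC
  have hF1 := hFrk n M D b A K f hG
  obtain ⟨hF2, hF3⟩ := hGauk (qG n M) K A.Bas (Lb n b) _ Rv U Ui hF1 hL.gU hL.gUi hL.gau
  have hder : IsDer (thLt (qG n M) K) := by
    have := (hOpc (qG n M) K K (RingHom.id K) 1 one_pos).2.2.2.2.2.2.2.2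
    exact this.1
  have hF3' : FrobK (Lb n b) (-Rv.transpose) := by
    have h01 : ∀ i j, InG ((1 : Matrix A.Bas A.Bas (LL (qG n M) K)) i j) := by
      intro i j
      by_cases h : i = j
      · subst h
        rw [Matrix.one_apply_eq]
        exact inG_one
      · rw [Matrix.one_apply_ne h]
        exact inG_zero
    refine (hGauk (qG n M) K A.Bas (Lb n b) Rv Rv 1 1 hF2 h01 h01 ⟨one_mul 1, one_mul 1, ?_⟩).2
    have h0 : (1 : Matrix A.Bas A.Bas (LL (qG n M) K)).map (thLt (qG n M) K) = 0 := by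
      apply Matrix.ext
      intro i j
      rw [Matrix.map_apply, Matrix.zero_apply]
      by_cases h : i = j
      · subst h
        rw [Matrix.one_apply_eq]
        exact hder.one
      · rw [Matrix.one_apply_ne h, map_zero]
    rw [h0, zero_add, mul_one, one_mul]
  have hpf' : PolF (-Rv.transpose) := by
    intro i j m hm
    rw [Matrix.neg_apply, Matrix.transpose_apply, HahnSeries.coeff_neg, hL.pf j i m hm, neg_zero]
  have hnil' : (mco 0 (-Rv.transpose)) ^ Fintype.card A.Bas = 0 := by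
    have h0 : mco 0 (-Rv.transpose) = -(mco 0 Rv).transpose := by
      apply Matrix.ext
      intro i j
      unfold mco
      rw [Matrix.map_apply, Matrix.neg_apply, Matrix.transpose_apply, Matrix.neg_apply,
        Matrix.transpose_apply, Matrix.map_apply, HahnSeries.coeff_neg]
    rw [h0, neg_pow, ← Matrix.transpose_pow, hL.nil, Matrix.transpose_zero, mul_zero]
  obtain ⟨p1, hp1⟩ := hTrk (qG n M) K A.Bas (Lb n b) Rv hF2 hL.pf hL.nil
    (N' + (2 * L + 1) * r ^ 2) (C + 2 * (u + v))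
  obtain ⟨p2, hp2⟩ := hTrk (qG n M) K A.Bas (Lb n b) (-Rv.transpose) hF3' hpf' hnil'
    (N' + (2 * L + 1) * r ^ 2) (C + 2 * (u + v))
  refine ⟨N, C, p0 + p1 + p2 + 3, by omega, by omega, ?_⟩
  intro p _ hp ι f' Dl U' Ui' Rv' hP
  obtain ⟨_, hall⟩ := hp0 p (by omega) ι
  obtain ⟨_, hun, he, hc, _, hR⟩ := hall f' hP.lf
  obtain ⟨h1, h2, h3⟩ := core hFrb hPfm hCpm hPfp hPol A hn hM (by omega : 3 ≤ p) f' Dl hP.dl hun
    hc e he N (by rw [← hLdef, ← hr]; omega)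
  have hg := gauge_lift hLft hOpc hL.gau hP.lU hP.lUi hR hP.lR
  have hder' : IsDer (thLt (qG n M) ℤ_[p]) := by
    have := (hOpc (qG n M) ℤ_[p] ℤ_[p] (RingHom.id _) 1 one_pos).2.2.2.2.2.2.2.2
    exact this.1
  have hcomm := (hOpc (qG n M) ℤ_[p] ℤ_[p] (RingHom.id _) p
    (Fact.out : p.Prime).pos).2.2.2.2.2.2.1
  have h4 := hGau A.Bas _ _ _ _ _ _ _ _ _ _ _ _ hder' hcomm h1 hg
  have hprec : N - (Lb n b * Fintype.card A.Bas + Lb n b) = N' + (2 * L + 1) * r ^ 2 + 1 := by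
    rw [← hLdef, ← hr]; omega
  rw [hprec] at h4
  have h5 : FStr (phL (qG n M) ℤ_[p] p) (thLt (qG n M) ℤ_[p]) p (N' + (2 * L + 1) * r ^ 2)
      (Lb n b) Rv' (Pv A D N p f' Dl U' Ui') (Fv A D N p f' Dl U' Ui') :=
    FStr.mono (Nat.le_succ _) h4
  have hpp : 0 < p := (Fact.out : p.Prime).pos
  have hU' : PolLe u U' := LiftM.polLe hP.lU hu
  have hUi' : PolLe v Ui' := LiftM.polLe hP.lUi hv
  have hle : ∀ a b' : ℕ, a ≤ u + v → b' ≤ u + v → a * p + C * p + b' ≤ (C + 2 * (u + v)) * p := by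
    intro a b' ha hb'
    have h6 : a * p ≤ (u + v) * p := Nat.mul_le_mul_right _ ha
    have h7 : b' ≤ (u + v) * p := hb'.trans (Nat.le_mul_of_pos_right _ hpp)
    nlinarith
  have hPvle : PolLe ((C + 2 * (u + v)) * p) (Pv A D N p f' Dl U' Ui') := by
    have := PolLe.mul (PolLe.mul (PolLe.phT hpp (phO (qG n M) ℤ_[p] p) hUi') h2) hU'
    exact PolLe.mono (hle v u (by omega) (by omega)) this
  have hFvle : PolLe ((C + 2 * (u + v)) * p) (Fv A D N p f' Dl U' Ui') := by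
    have := PolLe.mul (PolLe.mul hUi' h3) (PolLe.phT hpp (phO (qG n M) ℤ_[p] p) hU')
    refine PolLe.mono ?_ this
    have h9 := hle u v (by omega) (by omega)
    rw [hC] at h9 ⊢
    linarith
  have hPT : PolLe ((C + 2 * (u + v)) * p) (Pv A D N p f' Dl U' Ui').transpose :=
    fun i j => hPvle j i
  have h6 := hDual A.Bas _ _ _ _ _ _ _ _ _ h5
  have h7 := hp1 p (by omega) ι Rv' (Fv A D N p f' Dl U' Ui') hP.lR h5.cF hFvle
  have hlT : LiftM ι (-Rv.transpose) (-Rv'.transpose) := by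
    unfold LiftM
    apply Matrix.ext
    intro i j
    have h8 : mL (qG n M) ι (Rv j i) = mL (qG n M) (zq p) (Rv' j i) :=
      congrFun (congrFun hP.lR j) i
    rw [Matrix.map_apply, Matrix.map_apply, Matrix.neg_apply, Matrix.neg_apply,
      Matrix.transpose_apply, Matrix.transpose_apply, map_neg, map_neg, h8]
  have h8 := hp2 p (by omega) ι (-Rv'.transpose) (Pv A D N p f' Dl U' Ui').transpose hlT
    h6.cF hPT
  have h9 : N' + (2 * L + 1) * r ^ 2 - (2 * Lb n b + 1) * Fintype.card A.Bas ^ 2 = N' := by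
    rw [← hLdef, ← hr]; omega
  rw [h9] at h7 h8
  exact ⟨FStr.mono (by omega) h5, fun i j => h8 j i, h7, h2⟩

end Pool.Agent.Helper95_CM.H12
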