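import Pool.Agent.Helper12_CM.Base

/-! helper12, CM (MP_31342c_an): JCONE, JHOR, JZETA. -/

set_option autoImplicit false

namespace Pool.Agent.Helper95_CM.H12

open MvPolynomial

section
variable {n M : ℕ} {R : Type} [CommRing R]

/-- bounds for the exponents -/
def Rng (k : Fin (n + 1)) (a b l : ℕ) (x : PP n R) : Prop :=
  Supp (fun s => a ≤ s k ∧ s k ≤ b ∧ s 0 = l) x

lemma supp_mul {P Q S : Expo n → Prop} (h : ∀ s t, P s → Q t → S (s + t)) {x y : PP n R}
    (hx : Supp P x) (hy : Supp Q y) : Supp S (x * y) := by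
  classical
  intro s hs
  rw [coeff_mul] at hs
  obtain ⟨⟨u, v⟩, hu, hne⟩ := Finset.exists_ne_zero_of_sum_ne_zero hs
  rw [Finset.HasAntidiagonal.mem_antidiagonal] at hu
  simp only at hne hu
  rw [← hu]
  exact h u v (hx u (left_ne_zero_of_mul hne)) (hy v (right_ne_zero_of_mul hne))

lemma supp_sum {ι : Type*} {P : Expo n → Prop} (s : Finset ι) (f : ι → PP n R)
    (h : ∀ i ∈ s, Supp P (f i)) : Supp P (∑ i ∈ s, f i) := by
  intro u hu
  rw [coeff_sum] at hu
  obtain ⟨i, hi, hne⟩ := Finset.exists_ne_zero_of_sum_ne_zero hu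
  exact h i hi u hne

lemma supp_add {P : Expo n → Prop} {x y : PP n R} (hx : Supp P x) (hy : Supp P y) :
    Supp P (x + y) := by
  intro s hs
  rw [coeff_add] at hs
  by_cases h : coeff s x = 0
  · rw [h, zero_add] at hs
    exact hy s hs
  · exact hx s h

lemma supp_zsmul {P : Expo n → Prop} (k : ℤ) {x : PP n R} (hx : Supp P x) : Supp P (k • x) := by
  intro s hs
  rw [coeff_smul] at hs
  apply hx s
  intro h
  rw [h, smul_zero] at hs
  exact hs rfl

lemma supp_prod (k : Fin (n + 1)) {ι : Type*} (s : Finset ι) (f : ι → PP n R) (a b l : ι → ℕ)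
    (h : ∀ i ∈ s, Rng k (a i) (b i) (l i) (f i)) :
    Rng k (∑ i ∈ s, a i) (∑ i ∈ s, b i) (∑ i ∈ s, l i) (∏ i ∈ s, f i) := by
  classical
  induction s using Finset.induction_on with
  | empty =>
    intro s hs
    rw [Finset.prod_empty, coeff_one] at hs
    have : (0 : Expo n) = s := by
      by_contra h
      rw [if_neg h] at hs
      exact hs rfl
    subst this
    simp
  | insert i s hi ih =>
    rw [Finset.prod_insert hi, Finset.sum_insert hi, Finset.sum_insert hi, Finset.sum_insert hi]
    refine supp_mul ?_ (h i (Finset.mem_insert_self i s))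
      (ih fun j hj => h j (Finset.mem_insert_of_mem hj))
    rintro u v ⟨h1, h2, h3⟩ ⟨h4, h5, h6⟩
    rw [Finsupp.add_apply, Finsupp.add_apply]
    omega

/-- bounds for a determinant from bounds for the rows -/
lemma rng_det (k : Fin (n + 1)) (A : Matrix (Fin (n + 1)) (Fin (n + 1)) (PP n R))
    (a b l : Fin (n + 1) → ℕ) (h : ∀ j i, Rng k (a j) (b j) (l j) (A j i)) :
    Rng k (∑ j, a j) (∑ j, b j) (∑ j, l j) A.det := by
  rw [Matrix.det_apply]
  apply supp_sum
  intro σ _
  have h1 : Rng k (∑ j, a j) (∑ j, b j) (∑ j, l j) (∏ i, A (σ i) i) := by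
    have := supp_prod k Finset.univ (fun i => A (σ i) i) (fun i => a (σ i)) (fun i => b (σ i))
      (fun i => l (σ i)) (fun i _ => h (σ i) i)
    rwa [Equiv.sum_comp σ a, Equiv.sum_comp σ b, Equiv.sum_comp σ l] at this
  rcases Int.units_eq_one_or (Equiv.Perm.sign σ) with hs | hs
  · rw [hs, one_smul]
    exact h1
  · rw [hs, Units.neg_smul, one_smul]
    intro s hs
    apply h1 s
    intro h0
    rw [coeff_neg, h0, neg_zero] at hs
    exact hs rfl

/-- JCONE -/
theorem jcone : JConeStmt := by
  intro n M R _ g hn hM hg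
  set A : Matrix (Fin (n + 1)) (Fin (n + 1)) (PP n R) := Matrix.of fun j i => th j (g i) with hA
  have hlev : ∀ i s, coeff s (g i) ≠ 0 → s 0 = 1 := fun i s hs => (hg i).2 s hs
  have hcn : ∀ i s, coeff s (g i) ≠ 0 → ∀ k : Fin n, s k.succ ≤ M := by
    intro i s hs k
    have := (hg i).1 s hs k
    rwa [hlev i s hs, mul_one] at this
  have hent : ∀ j i s, coeff s (A j i) ≠ 0 → coeff s (g i) ≠ 0 ∧ 1 ≤ s j := by
    intro j i s hs
    rw [hA, Matrix.of_apply, coeff_th] at hs
    refine ⟨right_ne_zero_of_mul hs, ?_⟩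
    by_contra h
    have : s j = 0 := by omega
    rw [this, Nat.cast_zero, zero_mul] at hs
    exact hs rfl
  -- lower bounds and level
  have hlow : ∀ k : Fin n, ∀ s, coeff s A.det ≠ 0 → 1 ≤ s k.succ ∧ s 0 = n + 1 := by
    intro k s hs
    have h := rng_det k.succ A (fun j => if j = k.succ then 1 else 0) (fun _ => M) (fun _ => 1) ?_
      s hs
    · rw [Finset.sum_ite_eq' Finset.univ k.succ, if_pos (Finset.mem_univ _)] at h
      obtain ⟨h1, _, h3⟩ := h
      refine ⟨h1, ?_⟩
      rw [h3]
      simp
    · intro j i u hu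
      obtain ⟨h1, h2⟩ := hent j i u hu
      refine ⟨?_, hcn i u h1 k, hlev i u h1⟩
      split_ifs with hj
      · rw [← hj]
        exact h2
      · exact Nat.zero_le _
  -- upper bounds
  have hup : ∀ k : Fin n, ∀ s, coeff s A.det ≠ 0 → s k.succ < M * (n + 1) := by
    intro k s hs
    have hk : k.succ ≠ (0 : Fin (n + 1)) := Fin.succ_ne_zero k
    rw [← Matrix.det_updateRow_add_smul_self A hk (-(M : PP n R))] at hs
    have h := rng_det k.succ _ (fun _ => 0) (fun j => if j = k.succ then M - 1 else M)
      (fun _ => 1) ?_ s hs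
    · obtain ⟨_, h2, _⟩ := h
      have e : ∑ j : Fin (n + 1), (if j = k.succ then M - 1 else M) + 1 = M * (n + 1) := by
        rw [← Finset.add_sum_erase Finset.univ _ (Finset.mem_univ k.succ), if_pos rfl]
        have : ∑ x ∈ Finset.univ.erase k.succ, (if x = k.succ then M - 1 else M) = n * M := by
          rw [Finset.sum_congr rfl (g := fun _ => M)]
          · rw [Finset.sum_const, Finset.card_erase_of_mem (Finset.mem_univ _), Finset.card_univ,
              Fintype.card_fin, smul_eq_mul]
            simp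
          · intro x hx
            rw [if_neg (Finset.ne_of_mem_erase hx)]
        rw [this]
        have hM' : M - 1 + 1 = M := by omega
        calc M - 1 + n * M + 1 = (M - 1 + 1) + n * M := by ring
          _ = M + n * M := by rw [hM']
          _ = _ := by ring
      omega
    · intro j i u hu
      by_cases hj : j = k.succ
      · subst hj
        rw [Matrix.updateRow_self, Pi.add_apply, Pi.smul_apply, smul_eq_mul, hA,
          Matrix.of_apply, Matrix.of_apply, coeff_add, coeff_th, neg_mul, coeff_neg,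
          ← map_natCast (C : R →+* PP n R), coeff_C_mul, coeff_th] at hu
        have hgi : coeff u (g i) ≠ 0 := by
          intro h0
          rw [h0] at hu
          simp at hu
        have h0 := hlev i u hgi
        have h1 := hcn i u hgi k
        rw [h0, Nat.cast_one, one_mul] at hu
        refine ⟨Nat.zero_le _, ?_, h0⟩
        rw [if_pos rfl]
        by_contra hlt
        have : u k.succ = M := by omega
        rw [this] at hu
        simp at hu
      · rw [Matrix.updateRow_ne hj] at hu
        obtain ⟨h1, _⟩ := hent j i u hu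
        rw [if_neg hj]
        exact ⟨Nat.zero_le _, hcn i u h1 k, hlev i u h1⟩
  have hk0 : Fin n := ⟨0, hn⟩
  refine ⟨fun s hs k => ⟨(hlow k s hs).1, ?_⟩, fun s hs => (hlow hk0 s hs).2⟩
  rw [(hlow k s hs).2]
  exact hup k s hs

/-! ### horizontality -/

/-- `cder` as an additive map -/
noncomputable def cdA (d : R →+ R) : PP n R →+ PP n R where
  toFun := cder d
  map_zero' := by ext s; rw [coeff_cder, coeff_zero, map_zero]
  map_add' x y := by ext s; rw [coeff_cder, coeff_add, map_add, coeff_add, coeff_cder, coeff_cder]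

lemma cdA_leib {d : R →+ R} (hd : IsDer d) : Leib (cdA (n := n) d) := by
  classical
  intro x y
  ext s
  show coeff s (cder d (x * y)) = coeff s (cder d x * y + x * cder d y)
  rw [coeff_cder, coeff_add, coeff_mul, coeff_mul, coeff_mul, map_sum, ← Finset.sum_add_distrib]
  apply Finset.sum_congr rfl
  intro u _
  rw [hd, coeff_cder, coeff_cder]

lemma cder_th (d : R →+ R) (i : Fin (n + 1)) (x : PP n R) :
    cder d (th i x) = th i (cder d x) := by
  ext s
  rw [coeff_cder, coeff_th, coeff_th, coeff_cder, ← nsmul_eq_mul, map_nsmul, nsmul_eq_mul]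

lemma coeff_Fp (c : Grid n M → R) (s : Expo n) :
    coeff s (Fp c) = ∑ β, if gex β = s then c β else 0 := by
  classical
  unfold Fp
  rw [coeff_sum]
  apply Finset.sum_congr rfl
  intro β _
  rw [coeff_monomial]

lemma Fp_good (c : Grid n M → R) : IsCone M false (Fp c) ∧ HasLev 1 (Fp c) := by
  classical
  have h : ∀ s, coeff s (Fp c) ≠ 0 → ∃ β : Grid n M, gex β = s := by
    intro s hs
    rw [coeff_Fp] at hs
    obtain ⟨β, _, hne⟩ := Finset.exists_ne_zero_of_sum_ne_zero hs
    refine ⟨β, ?_⟩
    by_contra h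
    rw [if_neg h] at hne
    exact hne rfl
  constructor
  · intro s hs k
    obtain ⟨β, rfl⟩ := h s hs
    rw [gex_succ, gex_zero, mul_one]
    have := (β k).2
    omega
  · intro s hs
    obtain ⟨β, rfl⟩ := h s hs
    exact gex_zero β

lemma th_good {x : PP n R} (h : IsCone M false x ∧ HasLev 1 x) (i : Fin (n + 1)) :
    IsCone M false (th i x) ∧ HasLev 1 (th i x) := by
  have e : ∀ s, coeff s (th i x) ≠ 0 → coeff s x ≠ 0 := by
    intro s hs
    rw [coeff_th] at hs
    exact right_ne_zero_of_mul hs
  exact ⟨fun s hs => h.1 s (e s hs), fun s hs => h.2 s (e s hs)⟩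

lemma cder_good {x : PP n R} (h : IsCone M false x ∧ HasLev 1 x) (d : R →+ R) :
    IsCone M false (cder d x) ∧ HasLev 1 (cder d x) := by
  have e : ∀ s, coeff s (cder d x) ≠ 0 → coeff s x ≠ 0 := by
    intro s hs h0
    rw [coeff_cder, h0, map_zero] at hs
    exact hs rfl
  exact ⟨fun s hs => h.1 s (e s hs), fun s hs => h.2 s (e s hs)⟩

lemma th_zero_of_lev {x : PP n R} (h : HasLev 1 x) : th 0 x = x := by
  ext s
  rw [coeff_th]
  by_cases h0 : coeff s x = 0
  · rw [h0, mul_zero]
  · rw [h s h0, Nat.cast_one, one_mul]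

lemma Yp_eq (c : Grid n M → R) (i : Fin (n + 1)) : Yp c i = Hes c i 0 := by
  rw [Hes_apply, th_zero_of_lev (Fp_good c).2]
  rfl

/-- `ξ_i = Σ_j adj_ij θ_j G` lies in the interior of the cone -/
lemma xi_good (c : Grid n M → R) (hn : 1 ≤ n) (hM : 1 ≤ M) {G : PP n R}
    (hG : IsCone M false G ∧ HasLev 1 G) (i : Fin (n + 1)) :
    IsCone M true (∑ j, (Hes c).adjugate i j * th j G) ∧
      HasLev (n + 1) (∑ j, (Hes c).adjugate i j * th j G) := by
  have e : ∑ j, (Hes c).adjugate i j * th j G = Matrix.det (Matrix.of fun j m =>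
      th j ((fun m => if m = i then G else th m (Fp c)) m)) := by
    have h1 : ∑ j, (Hes c).adjugate i j * th j G =
        (Hes c).adjugate.mulVec (fun j => th j G) i := rfl
    rw [h1, ← Matrix.cramer_eq_adjugate_mulVec, Matrix.cramer_apply]
    congr 1
    refine Matrix.ext fun j m => ?_
    rw [Matrix.of_apply]
    by_cases hm : m = i
    · subst hm
      rw [Matrix.updateCol_self]
      show th j G = th j (if m = m then G else th m (Fp c))
      rw [if_pos rfl]
    · rw [Matrix.updateCol_ne hm]
      show _ = th j (if m = i then G else th m (Fp c))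
      rw [if_neg hm]
      rfl
  rw [e]
  apply jcone n M R _ hn hM
  intro m
  split_ifs
  · exact hG
  · exact th_good (Fp_good c) m

lemma sum_Y_adj (c : Grid n M → R) (G : PP n R) :
    ∑ i, Yp c i * ∑ j, (Hes c).adjugate i j * th j G = Jac c * th 0 G := by
  have e : ∀ j, ∑ i, Hes c i 0 * (Hes c).adjugate i j = if j = 0 then Jac c else 0 := by
    intro j
    have h := Matrix.adjugate_mul (Hes c)
    have h2 : ((Hes c).adjugate * Hes c) j 0 =
        ((Hes c).det • (1 : Matrix (Fin (n + 1)) (Fin (n + 1)) (PP n R))) j 0 := by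
      rw [h]
    rw [Matrix.mul_apply, Matrix.smul_apply, Matrix.one_apply, smul_eq_mul] at h2
    rw [Finset.sum_congr rfl (g := fun i => (Hes c).adjugate j i * Hes c i 0)]
    · rw [h2]
      split_ifs
      · rw [mul_one]; rfl
      · rw [mul_zero]
    · intro i _
      rw [adj_symm, mul_comm]
  calc ∑ i, Yp c i * ∑ j, (Hes c).adjugate i j * th j G
      = ∑ j, (∑ i, Hes c i 0 * (Hes c).adjugate i j) * th j G := by
        simp_rw [Finset.mul_sum, Finset.sum_mul]
        rw [Finset.sum_comm]
        apply Finset.sum_congr rfl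
        intro j _
        apply Finset.sum_congr rfl
        intro i _
        rw [Yp_eq]
        ring
    _ = _ := by
        simp_rw [e, ite_mul, zero_mul]
        rw [Finset.sum_ite_eq' Finset.univ, if_pos (Finset.mem_univ _)]

lemma sum_th_adj (c : Grid n M → R) (hn : 1 ≤ n) (hM : 1 ≤ M) (G : PP n R) :
    ∑ i, th i (∑ j, (Hes c).adjugate i j * th j G) =
      ∑ i, ∑ j, (Hes c).adjugate i j * th i (th j G) := by
  have e : ∀ i, th i (∑ j, (Hes c).adjugate i j * th j G) =
      ∑ j, (th i ((Hes c).adjugate i j) * th j G + (Hes c).adjugate i j * th i (th j G)) := by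
    intro i
    rw [map_sum]
    apply Finset.sum_congr rfl
    intro j _
    exact thA_leib i _ _
  simp_rw [e, Finset.sum_add_distrib]
  rw [add_eq_right, Finset.sum_comm]
  apply Finset.sum_eq_zero
  intro j _
  rw [← Finset.sum_mul, piola n M R c j hn hM, zero_mul]

lemma cder_Jac (c : Grid n M → R) {d : R →+ R} (hd : IsDer d) :
    cder d (Jac c) = ∑ i, ∑ j, (Hes c).adjugate i j * th i (th j (cder d (Fp c))) := by
  have h := der_det_col (cdA_leib (n := n) hd) (Hes c)
  have h1 : cder d (Jac c) = cdA d (Hes c).det := rfl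
  rw [h1, h]
  apply Finset.sum_congr rfl
  intro i _
  have h2 : ((Hes c).updateCol i fun j => cdA d (Hes c j i)).det =
      ∑ j, (Hes c).adjugate i j * th j (th i (cder d (Fp c))) := by
    rw [← Matrix.cramer_apply, Matrix.cramer_eq_adjugate_mulVec]
    show ∑ j, (Hes c).adjugate i j * cder d (Hes c j i) = _
    apply Finset.sum_congr rfl
    intro j _
    rw [Hes_apply, cder_th, cder_th]
  rw [h2]
  apply Finset.sum_congr rfl
  intro j _
  rw [th_comm]

/-- JHOR -/
theorem jhor : JHorStmt := by
  intro n M R _ c d hn hM hd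
  refine ⟨fun i => ∑ j, (Hes c).adjugate i j * th j (cder d (Fp c)),
    fun i => (xi_good c hn hM (cder_good (Fp_good c) d) i).1, ?_⟩
  simp only [Dop_apply]
  rw [Finset.sum_sub_distrib, sum_Y_adj, sum_th_adj c hn hM, ← cder_Jac c hd,
    th_zero_of_lev (cder_good (Fp_good c) d).2]
  unfold nab
  ring

/-- JZETA -/
theorem jzeta : JZetaStmt := by
  classical
  intro n M R _ c β hn hM
  have hmon : IsCone M false (mon (gex β) : PP n R) ∧ HasLev 1 (mon (gex β) : PP n R) := by
    have h : ∀ s, coeff s (mon (gex β) : PP n R) ≠ 0 → gex β = s := by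
      intro s hs
      unfold mon at hs
      rw [coeff_monomial] at hs
      by_contra h
      rw [if_neg h] at hs
      exact hs rfl
    constructor
    · intro s hs k
      rw [← h s hs, gex_succ, gex_zero, mul_one]
      have := (β k).2
      omega
    · intro s hs
      rw [← h s hs]
      exact gex_zero β
  have hth : ∀ i : Fin (n + 1), th i (mon (gex β) : PP n R) =
      ((bh β i : ℕ) : PP n R) * mon (gex β) := by
    intro i
    ext s
    rw [coeff_th, ← map_natCast (C : R →+* PP n R), coeff_C_mul]
    unfold mon bh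
    rw [coeff_monomial]
    split_ifs with h
    · rw [h]
    · rw [mul_zero, mul_zero]
  refine ⟨fun i => ∑ j, (Hes c).adjugate i j * th j (mon (gex β)),
    fun i => xi_good c hn hM hmon i, ?_, ?_⟩
  · rw [sum_Y_adj, th_zero_of_lev hmon.2, mul_comm]
  · intro d hd hv
    have hF : cder d (Fp c) = mon (gex β) := by
      ext s
      rw [coeff_cder, coeff_Fp, map_sum]
      unfold mon
      rw [coeff_monomial, Finset.sum_eq_single β]
      · split_ifs with h
        · rw [hv, if_pos rfl]
        · rw [map_zero]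
      · intro β' _ hne
        split_ifs
        · rw [hv, if_neg hne]
        · rw [map_zero]
      · intro h
        exact absurd (Finset.mem_univ β) h
    rw [cder_Jac c hd, hF]
    apply Finset.sum_congr rfl
    intro i _
    rw [Finset.mul_sum]
    apply Finset.sum_congr rfl
    intro j _
    rw [th_comm, hth i]
    have e : th j (((bh β i : ℕ) : PP n R) * mon (gex β)) =
        ((bh β i : ℕ) : PP n R) * th j (mon (gex β)) := by
      rw [← nsmul_eq_mul, map_nsmul, nsmul_eq_mul]
    rw [e]
    ring

end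

end Pool.Agent.Helper95_CM.H12
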